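import Pool.Agent.MP_d56d33_an.Scalar

set_option autoImplicit false

open MeasureTheory Set Matrix

namespace Pool.Agent.Results.MP_d56d33_an.ExpNotL2

open Pool.Agent.MP_d56d33_an

/-- The homeomorphism `v + sin v` of the line. -/
noncomputable def chi (v : ℝ) : ℝ := v + Real.sin v

lemma chi_continuous : Continuous chi := continuous_id.add Real.continuous_sin

lemma chi_neg (v : ℝ) : chi (-v) = -chi v := by simp [chi]; ring

lemma chi_strictMono : StrictMono chi := by
  intro a b hab
  have h1 : Real.sin a - Real.sin b = 2 * Real.sin ((a - b) / 2) * Real.cos ((a + b) / 2) :=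
    Real.sin_sub_sin a b
  have h2 : |Real.sin ((a - b) / 2)| < (b - a) / 2 := by
    have h3 : Real.sin ((a - b) / 2) = -Real.sin ((b - a) / 2) := by
      rw [← Real.sin_neg]; congr 1; ring
    rw [h3, abs_neg]
    have := Real.abs_sin_lt_abs (x := (b - a) / 2) (by
      have : 0 < (b - a) / 2 := by linarith
      exact this.ne')
    rwa [abs_of_pos (show 0 < (b - a) / 2 by linarith)] at this
  have h4 : |Real.sin a - Real.sin b| < b - a := by
    rw [h1, abs_mul, abs_mul, abs_of_pos (by norm_num : (0 : ℝ) < 2)]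
    have h5 := Real.abs_cos_le_one ((a + b) / 2)
    have h6 := abs_nonneg (Real.cos ((a + b) / 2))
    have h7 := abs_nonneg (Real.sin ((a - b) / 2))
    nlinarith
  have h8 := (abs_lt.1 h4).2
  simp only [chi]
  linarith

lemma chi_surjective : Function.Surjective chi := by
  apply chi_continuous.surjective
  · apply Filter.tendsto_atTop_mono (f := fun v : ℝ => v - 1)
    · intro v; have := Real.neg_one_le_sin v; simp only [chi]; linarith
    · exact Filter.tendsto_atTop_add_const_right _ _ Filter.tendsto_id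
  · apply Filter.tendsto_atBot_mono (g := chi) (f := fun v : ℝ => v + 1)
    · intro v; have := Real.sin_le_one v; simp only [chi]; linarith
    · exact Filter.tendsto_atBot_add_const_right _ _ Filter.tendsto_id

/-- The inverse function of `chi`. -/
noncomputable def chiIso : ℝ ≃o ℝ := StrictMono.orderIsoOfSurjective chi chi_strictMono chi_surjective

/-- The inverse function of `chi`. -/
noncomputable def w (x : ℝ) : ℝ := chiIso.symm x

lemma w_chi (v : ℝ) : w (chi v) = v := chiIso.symm_apply_apply v

lemma chi_w (x : ℝ) : chi (w x) = x := chiIso.apply_symm_apply x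

lemma w_continuous : Continuous w := chiIso.symm.continuous

lemma w_neg (x : ℝ) : w (-x) = -w x := by
  apply chi_strictMono.injective
  rw [chi_w, chi_neg, chi_w]

lemma chi_upper {v : ℝ} (hv : 0 ≤ v) : chi v ≤ 2 * v := by
  have := Real.sin_le hv
  simp only [chi]; linarith

lemma chi_lower {v : ℝ} (hv : 0 ≤ v) : v / 2 ≤ chi v := by
  simp only [chi]
  rcases le_total v Real.pi with h | h
  · have := Real.sin_nonneg_of_nonneg_of_le_pi hv h
    linarith
  · have h1 := Real.neg_one_le_sin v
    have h2 := Real.pi_gt_three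
    linarith

lemma chi_pos {v : ℝ} (hv : 0 < v) : 0 < chi v := by
  have := chi_lower hv.le; linarith

lemma w_nonneg {x : ℝ} (hx : 0 ≤ x) : 0 ≤ w x := by
  by_contra h
  push Not at h
  have h1 : 0 < chi (-w x) := chi_pos (by linarith)
  rw [chi_neg, chi_w] at h1
  linarith

lemma w_le {x : ℝ} (hx : 0 ≤ x) : w x ≤ 2 * x := by
  have := chi_lower (w_nonneg hx)
  rw [chi_w] at this
  linarith

/-- The unperturbed damping. -/
noncomputable def g (x : ℝ) : ℝ := w x * (1 + Real.cos (w x))

lemma g_continuous : Continuous g :=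
  w_continuous.mul (continuous_const.add (Real.continuous_cos.comp w_continuous))

lemma g_neg (x : ℝ) : g (-x) = -g x := by
  simp only [g, w_neg, Real.cos_neg]; ring

lemma g_nonneg {x : ℝ} (hx : 0 ≤ x) : 0 ≤ g x := by
  have h1 := w_nonneg hx
  have h2 := Real.neg_one_le_cos (w x)
  exact mul_nonneg h1 (by linarith)

lemma g_le {x : ℝ} (hx : 0 ≤ x) : g x ≤ 4 * x := by
  have h1 := w_nonneg hx
  have h2 := Real.cos_le_one (w x)
  have h3 := w_le hx
  simp only [g]
  nlinarith

/-- The nonlinearity. -/
noncomputable def phi (x : ℝ) : ℝ := x + g x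

lemma phi_continuous : Continuous phi := continuous_id.add g_continuous

lemma phi_neg (x : ℝ) : phi (-x) = -phi x := by
  simp only [phi, g_neg]; ring

/-- The gain. -/
noncomputable def gain (t : ℝ) : ℝ := 1 + Real.exp (-t)

lemma phi_admissible : AdmissibleNonlinearity phi := by
  have key : ∀ x : ℝ, 0 ≤ x → 1 * x ^ 2 ≤ x * phi x ∧ x * phi x ≤ 5 * x ^ 2 := by
    intro x hx
    have h1 := g_nonneg hx
    have h2 := g_le hx
    simp only [phi]
    constructor <;> nlinarith
  refine ⟨?_, 1, 5, one_pos, by norm_num, ?_⟩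
  · have := phi_neg 0
    rw [neg_zero] at this
    linarith
  · intro σ _
    rcases le_total 0 σ with h | h
    · exact key σ h
    · have := key (-σ) (by linarith)
      rw [phi_neg] at this
      constructor <;> nlinarith [this.1, this.2]

lemma gain_admissible : AdmissibleGain gain := by
  refine ⟨⟨1, one_pos, fun t _ => ?_⟩, fun b _ => ?_⟩
  · have := Real.exp_pos (-t)
    simp only [gain]; linarith
  · apply ContDiffOn.absolutelyContinuousOnInterval
    exact (contDiff_const.add (Real.contDiff_exp.comp contDiff_neg)).contDiffOn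

/-- A solution with continuous right-hand side is differentiable from the right everywhere. -/
lemma hasDeriv_of_ac {y : ℝ → ℝ} {F : ℝ → ℝ → ℝ} {a b : ℝ} (hab : a ≤ b)
    (hF : Continuous (fun p : ℝ × ℝ => F p.1 p.2))
    (hac : AbsolutelyContinuousOnInterval y a b)
    (hode : ∀ᵐ t : ℝ, t ∈ Icc a b → HasDerivAt y (F t (y t)) t) :
    ∀ t ∈ Ico a b, HasDerivWithinAt y (F t (y t)) (Ici t) t := by
  have hyc : ContinuousOn y (Icc a b) := by
    have := hac.continuousOn; rwa [uIcc_of_le hab] at this
  set z : ℝ → ℝ := IccExtend hab (fun s : Icc a b => y s) with hz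
  have hzc : Continuous z := by
    rw [hz]; exact (continuousOn_iff_continuous_domRestrict.1 hyc).Icc_extend'
  have hzy : ∀ t ∈ Icc a b, z t = y t := fun t ht => IccExtend_of_mem hab _ ht
  set r : ℝ → ℝ := fun t => F t (z t) with hr
  have hrc : Continuous r := hF.comp (continuous_id.prodMk hzc)
  have hY : ∀ c ∈ Icc a b, y c = y a + ∫ t in a..c, r t := by
    intro c hc
    have h1 : AbsolutelyContinuousOnInterval y a c :=
      hac.mono (by rw [uIcc_of_le hc.1, uIcc_of_le hab]; exact Icc_subset_Icc le_rfl hc.2)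
    have h2 := h1.integral_deriv_eq_sub
    have h3 : ∫ t in a..c, deriv y t = ∫ t in a..c, r t := by
      apply intervalIntegral.integral_congr_ae
      filter_upwards [hode] with t ht hmem
      rw [uIoc_of_le hc.1] at hmem
      have hmem' : t ∈ Icc a b := ⟨hmem.1.le, hmem.2.trans hc.2⟩
      rw [(ht hmem').deriv, hr]
      simp only
      rw [hzy t hmem']
    rw [← h3, h2]; ring
  intro t ht
  have h4 : HasDerivAt (fun c => y a + ∫ s in a..c, r s) (r t) t := by
    have := intervalIntegral.integral_hasDerivAt_right (hrc.intervalIntegrable a t)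
      (hrc.stronglyMeasurableAtFilter _ _) hrc.continuousAt
    exact this.const_add (y a)
  have h5 : r t = F t (y t) := by
    rw [hr]; simp only; rw [hzy t ⟨ht.1, ht.2.le⟩]
  rw [← h5]
  apply (h4.hasDerivWithinAt (s := Ici t)).congr_of_eventuallyEq
  · have : Icc t b ∈ nhdsWithin t (Ici t) := Icc_mem_nhdsGE ht.2
    filter_upwards [this] with s hs
    exact hY s ⟨ht.1.trans hs.1, hs.2⟩
  · exact hY t ⟨ht.1, ht.2.le⟩

/-- One-sided comparison. -/
lemma compare {z : ℝ → ℝ} {a b v : ℝ} (hv : 0 < v)
    (hzc : ContinuousOn z (Icc a b))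
    (hz : ∀ t ∈ Ico a b, HasDerivWithinAt z (-g (z t) - Real.exp (-t) * phi (z t)) (Ici t) t)
    (h0 : z a ≤ chi v) : ∀ t ∈ Icc a b, z t ≤ chi (v * Real.exp (-(t - a))) := by
  have hB : ∀ t : ℝ, HasDerivAt (fun t => chi (v * Real.exp (-(t - a))))
      (-((v * Real.exp (-(t - a))) * (1 + Real.cos (v * Real.exp (-(t - a)))))) t := by
    intro t
    have h1 : HasDerivAt (fun t : ℝ => v * Real.exp (-(t - a)))
        (-(v * Real.exp (-(t - a)))) t := by
      have h2 : HasDerivAt (fun t : ℝ => -(t - a)) (-1) t := ((hasDerivAt_id t).sub_const a).neg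
      have h3 := ((Real.hasDerivAt_exp (-(t - a))).comp t h2).const_mul v
      convert! h3 using 1
      ring
    have h4 : HasDerivAt chi (1 + Real.cos (v * Real.exp (-(t - a))))
        (v * Real.exp (-(t - a))) := (hasDerivAt_id _).add (Real.hasDerivAt_sin _)
    have h5 := h4.comp t h1
    convert! h5 using 1
    ring
  intro t ht
  refine image_le_of_deriv_right_lt_deriv_boundary'
    (f := z) (f' := fun t => -g (z t) - Real.exp (-t) * phi (z t))
    (B := fun t => chi (v * Real.exp (-(t - a))))
    (B' := fun t => -((v * Real.exp (-(t - a))) * (1 + Real.cos (v * Real.exp (-(t - a))))))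
    hzc hz ?_ ?_ ?_ ?_ ht
  · simpa using h0
  · exact fun s _ => (hB s).continuousAt.continuousWithinAt
  · exact fun s _ => (hB s).hasDerivWithinAt
  · intro s _ hs
    have hpos : 0 < v * Real.exp (-(s - a)) := mul_pos hv (Real.exp_pos _)
    have h1 : g (z s) = (v * Real.exp (-(s - a))) * (1 + Real.cos (v * Real.exp (-(s - a)))) := by
      rw [hs, g, w_chi]
    have h2 : 0 < phi (z s) := by
      have h3 : 0 < z s := by rw [hs]; exact chi_pos hpos
      have h4 := g_nonneg h3.le
      simp only [phi]; linarith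
    have h5 : 0 < Real.exp (-s) * phi (z s) := mul_pos (Real.exp_pos _) h2
    rw [← h1]
    linarith

lemma expstable : ExpStable (n := 1) (m := 0) ![-1] ![1] gain phi := by
  refine ⟨1, 4, one_pos, by norm_num, ?_⟩
  intro t₀ x₀ T x ht₀ hsol t ht htT
  set y : ℝ → ℝ := fun s => x s 0 with hy
  have hac : AbsolutelyContinuousOnInterval y t₀ t := scalar_ac hsol ht htT
  have hyc : ContinuousOn y (Icc t₀ t) := by
    have := hac.continuousOn; rwa [uIcc_of_le ht] at this
  have hode : ∀ᵐ s : ℝ, s ∈ Icc t₀ t →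
      HasDerivAt y (-g (y s) - Real.exp (-s) * phi (y s)) s := by
    filter_upwards [scalar_ode hsol] with s hs hmem
    have := hs hmem.1 (lt_of_le_of_lt (by exact_mod_cast hmem.2) htT)
    convert! this using 1
    simp only [gain, phi, hy]
    ring
  have hF : Continuous (fun p : ℝ × ℝ => -g p.2 - Real.exp (-p.1) * phi p.2) := by
    have h1 := g_continuous
    have h2 := phi_continuous
    fun_prop
  have hd := hasDeriv_of_ac (F := fun s u => -g u - Real.exp (-s) * phi u) ht hF hac hode
  have hd' : ∀ s ∈ Ico t₀ t, HasDerivWithinAt (fun s => -y s)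
      (-g (-y s) - Real.exp (-s) * phi (-y s)) (Ici s) s := by
    intro s hs
    have := (hd s hs).neg
    convert! this using 1
    rw [g_neg, phi_neg]
    ring
  have hyinit : y t₀ = x₀ 0 := by rw [hy]; simp only; rw [hsol.init]
  -- the bound for every `δ > 0`
  have key : ∀ δ : ℝ, 0 < δ → |y t| ≤ 2 * (2 * |y t₀| + δ) * Real.exp (-(t - t₀)) := by
    intro δ hδ
    have hv : 0 < 2 * |y t₀| + δ := by positivity
    have h1 : |y t₀| ≤ chi (2 * |y t₀| + δ) := by
      have := chi_lower hv.le; linarith
    have h2 := compare hv hyc hd ((le_abs_self _).trans h1) t ⟨ht, le_rfl⟩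
    have h3 := compare hv hyc.neg hd' ((neg_le_abs _).trans h1) t ⟨ht, le_rfl⟩
    have h4 : |y t| ≤ chi ((2 * |y t₀| + δ) * Real.exp (-(t - t₀))) := abs_le'.2 ⟨h2, h3⟩
    have h5 := chi_upper (v := (2 * |y t₀| + δ) * Real.exp (-(t - t₀))) (by positivity)
    linarith
  have hlim : |y t| ≤ 4 * |y t₀| * Real.exp (-(t - t₀)) := by
    apply le_of_forall_pos_le_add
    intro ε hε
    have h1 := key (ε / 2) (by positivity)
    have h2 : Real.exp (-(t - t₀)) ≤ 1 := by rw [Real.exp_le_one_iff]; linarith
    nlinarith [Real.exp_pos (-(t - t₀))]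
  rw [norm_one, norm_one]
  rw [hyinit] at hlim
  convert! hlim using 3
  ring

lemma w_pi : w Real.pi = Real.pi := by
  have : chi Real.pi = Real.pi := by simp [chi]
  calc w Real.pi = w (chi Real.pi) := by rw [this]
    _ = Real.pi := w_chi _

lemma phi_pi : phi Real.pi = Real.pi := by
  simp [phi, g, w_pi]

lemma forced_sol : IsSolution (n := 1) (m := 0) ![-1] ![1] gain phi
    (fun t => Real.pi * Real.exp (-t)) 0 (vec1 Real.pi) ⊤ (fun _ => vec1 Real.pi) := by
  refine ⟨by simp, rfl, ?_, ?_, ?_⟩
  · intro b _ _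
    exact contDiffOn_const.absolutelyContinuousOnInterval
  · intro b _ _
    exact intervalIntegrable_const
  · refine Filter.Eventually.of_forall (fun t _ _ => ?_)
    rw [rhs_one]
    have h1 : vec1 Real.pi 0 - gain t * phi (vec1 Real.pi 0) + Real.pi * Real.exp (-t) = 0 := by
      rw [vec1_apply, phi_pi, gain]; ring
    rw [h1]
    have h2 : vec1 0 = 0 := by ext i; fin_cases i; simp [vec1]
    rw [h2]
    exact hasDerivAt_const t _

lemma not_l2stable : ¬ L2Stable (n := 1) (m := 0) ![-1] ![1] gain phi := by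
  intro h
  have hfin : (∫⁻ t in Ici (0 : ℝ), ENNReal.ofReal ((Real.pi * Real.exp (-t)) ^ 2)) < ⊤ := by
    have h1 : IntegrableOn (fun t : ℝ => (Real.pi * Real.exp (-t)) ^ 2) (Ici 0) := by
      have h2 : IntegrableOn (fun t : ℝ => Real.exp (-2 * t)) (Ioi 0) :=
        exp_neg_integrableOn_Ioi 0 (by norm_num)
      have h3 : Integrable (fun t : ℝ => Real.pi ^ 2 * Real.exp (-2 * t))
          (volume.restrict (Ici 0)) :=
        ((integrableOn_Ici_iff_integrableOn_Ioi (by simp)).2 h2).const_mul (Real.pi ^ 2)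
      have h4 : (fun t : ℝ => (Real.pi * Real.exp (-t)) ^ 2) =
          fun t => Real.pi ^ 2 * Real.exp (-2 * t) := by
        ext t
        rw [mul_pow, ← Real.exp_nat_mul]
        congr 2
        push_cast; ring
      rw [h4]
      exact h3
    have h4 := h1.2
    rwa [hasFiniteIntegral_iff_ofReal (Filter.Eventually.of_forall (fun t => sq_nonneg _))] at h4
  set E := (∫⁻ t in Ici (0 : ℝ), ENNReal.ofReal ((Real.pi * Real.exp (-t)) ^ 2)).toReal with hE
  obtain ⟨η₃, h3⟩ := h (Real.pi + 1) (E + 1) (by positivity) (by positivity)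
  have h4 := h3 0 (vec1 Real.pi) ⊤ (fun _ => vec1 Real.pi) (fun t => Real.pi * Real.exp (-t))
    le_rfl (by fun_prop) (by rw [norm_vec1, abs_of_pos Real.pi_pos]; linarith) (by
      rw [ENNReal.lt_ofReal_iff_toReal_lt hfin.ne]
      linarith) forced_sol
  have h5 : (∫⁻ t in {t : ℝ | (0 : ℝ) ≤ t ∧ (t : EReal) < ⊤},
      ENNReal.ofReal (‖vec1 Real.pi‖ ^ 2)) = ⊤ := by
    have h6 : {t : ℝ | (0 : ℝ) ≤ t ∧ (t : EReal) < ⊤} = Ici 0 := by
      ext t; simp
    rw [h6, setLIntegral_const, Real.volume_Ici, ENNReal.mul_top]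
    rw [norm_vec1, abs_of_pos Real.pi_pos]
    simp
  rw [h5] at h4
  exact absurd h4 (by simp)

/-- The system `y' - y + k(t) φ(y) = f` with `p(s) = s - 1`, `q(s) = 1`,
`k(t) = 1 + exp(-t)` and a suitable continuous odd nonlinearity `φ` in the sector `[1, 5]` has an
exponentially stable null solution for `f = 0`, but the forced system is not `L₂`-stable. -/
theorem result :
    AdmissibleGain (fun t => 1 + Real.exp (-t)) ∧
    ∃ φ : ℝ → ℝ, AdmissibleNonlinearity φ ∧ Continuous φ ∧ (∀ σ, φ (-σ) = -φ σ) ∧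
      ExpStable (n := 1) (m := 0) ![-1] ![1] (fun t => 1 + Real.exp (-t)) φ ∧
      ¬ L2Stable (n := 1) (m := 0) ![-1] ![1] (fun t => 1 + Real.exp (-t)) φ :=
  ⟨gain_admissible, phi, phi_admissible, phi_continuous, phi_neg, expstable, not_l2stable⟩

end Pool.Agent.Results.MP_d56d33_an.ExpNotL2
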