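import Pool.Agent.MP_d56d33_an.Scalar

set_option autoImplicit false

open MeasureTheory Set Matrix

namespace Pool.Agent.Results.MP_d56d33_an.L2NotExp

open Pool.Agent.MP_d56d33_an

lemma hasDerivAt_tanh (x : ℝ) : HasDerivAt Real.tanh (1 / Real.cosh x ^ 2) x := by
  have h := (Real.hasDerivAt_sinh x).div (Real.hasDerivAt_cosh x) (Real.cosh_pos x).ne'
  have h2 : (fun y => Real.sinh y / Real.cosh y) = Real.tanh := by
    ext y; rw [Real.tanh_eq_sinh_div_cosh]
  have h3 : Real.cosh x * Real.cosh x - Real.sinh x * Real.sinh x = 1 := by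
    have := Real.cosh_sq_sub_sinh_sq x; nlinarith
  rw [h3] at h
  rw [← h2]
  exact h

lemma lipschitz_tanh : LipschitzWith 1 Real.tanh := by
  apply lipschitzWith_of_nnnorm_deriv_le (fun x => (hasDerivAt_tanh x).differentiableAt)
  intro x
  rw [(hasDerivAt_tanh x).deriv]
  rw [← NNReal.coe_le_coe]
  simp only [coe_nnnorm, NNReal.coe_one, Real.norm_eq_abs]
  have h1 := Real.one_le_cosh x
  rw [abs_of_nonneg (by positivity)]
  rw [div_le_one (by positivity)]
  nlinarith

lemma strictMono_tanh : StrictMono Real.tanh := by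
  apply strictMono_of_deriv_pos
  intro x
  rw [(hasDerivAt_tanh x).deriv]
  have := Real.cosh_pos x
  positivity

lemma abs_tanh_le (x : ℝ) : |Real.tanh x| ≤ |x| := by
  have := lipschitz_tanh.dist_le_mul x 0
  simpa [Real.dist_eq] using this

lemma tanh_lower {x : ℝ} (_hx : 0 ≤ x) : x ≤ (1 + x) * Real.tanh x := by
  rw [Real.tanh_eq_sinh_div_cosh, mul_div_assoc', le_div_iff₀ (Real.cosh_pos x),
    Real.sinh_eq, Real.cosh_eq]
  have h1 : 0 < Real.exp (-x) := Real.exp_pos _
  have h2 : 1 + 2 * x ≤ Real.exp (2 * x) := by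
    have := Real.add_one_le_exp (2 * x); linarith
  have h3 : Real.exp x = Real.exp (2 * x) * Real.exp (-x) := by
    rw [← Real.exp_add]; ring_nf
  rw [h3]
  nlinarith

lemma abs_le_tanh (x : ℝ) : |x| ≤ (1 + |x|) * |Real.tanh x| := by
  rcases le_total 0 x with h | h
  · rw [abs_of_nonneg h]
    have := tanh_lower h
    exact this.trans (mul_le_mul_of_nonneg_left (le_abs_self _) (by linarith))
  · have h' : 0 ≤ -x := by linarith
    have := tanh_lower h'
    rw [abs_of_nonpos h]
    rw [Real.tanh_neg] at this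
    exact this.trans (mul_le_mul_of_nonneg_left (neg_le_abs _) (by linarith))

/-- The energy function `log cosh`. -/
noncomputable def G (x : ℝ) : ℝ := Real.log (Real.cosh x)

lemma hasDerivAt_G (x : ℝ) : HasDerivAt G (Real.tanh x) x := by
  have h := (Real.hasDerivAt_cosh x).log (Real.cosh_pos x).ne'
  rw [← Real.tanh_eq_sinh_div_cosh] at h
  exact h

lemma abs_tanh_le_one (x : ℝ) : |Real.tanh x| ≤ 1 := by
  rw [Real.tanh_eq_sinh_div_cosh, abs_div, abs_of_pos (Real.cosh_pos x),
    div_le_one (Real.cosh_pos x)]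
  apply abs_le_of_sq_le_sq _ (Real.cosh_pos x).le
  have := Real.cosh_sq_sub_sinh_sq x
  nlinarith

lemma lipschitz_G : LipschitzWith 1 G := by
  apply lipschitzWith_of_nnnorm_deriv_le (fun x => (hasDerivAt_G x).differentiableAt)
  intro x
  rw [(hasDerivAt_G x).deriv, ← NNReal.coe_le_coe]
  simpa using abs_tanh_le_one x

lemma G_zero : G 0 = 0 := by simp [G]

lemma G_le (x : ℝ) : G x ≤ |x| := by
  have := lipschitz_G.dist_le_mul x 0
  rw [G_zero] at this
  simp only [Real.dist_eq, sub_zero, NNReal.coe_one, one_mul] at this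
  exact (le_abs_self _).trans this

lemma G_nonneg (x : ℝ) : 0 ≤ G x := Real.log_nonneg (Real.one_le_cosh x)

lemma le_G (x : ℝ) : |x| ≤ Real.log 2 + G x := by
  rw [G, ← Real.log_mul (by norm_num) (Real.cosh_pos x).ne',
    Real.le_log_iff_exp_le (by have := Real.cosh_pos x; positivity), Real.cosh_eq]
  rcases le_total 0 x with h | h
  · rw [abs_of_nonneg h]; have := Real.exp_pos (-x); linarith
  · rw [abs_of_nonpos h]; have := Real.exp_pos x; linarith

/-- From bounds on compact subintervals to a bound on `[t₀, T)`. -/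
lemma lintegral_Ico_le {g : ℝ → ENNReal} {t₀ : ℝ} {T : EReal} {C : ENNReal}
    (h : ∀ b : ℝ, t₀ ≤ b → (b : EReal) < T → ∫⁻ t in Icc t₀ b, g t ≤ C) :
    ∫⁻ t in {t : ℝ | t₀ ≤ t ∧ (t : EReal) < T}, g t ≤ C := by
  let s : ℚ → Set ℝ := fun q => {t : ℝ | t₀ ≤ t ∧ t ≤ q ∧ ((q : ℝ) : EReal) < T}
  have hs : {t : ℝ | t₀ ≤ t ∧ (t : EReal) < T} = ⋃ q, s q := by
    ext t
    simp only [mem_ofPred_eq, mem_iUnion, s]
    constructor
    · rintro ⟨h1, h2⟩
      obtain ⟨q, hq1, hq2⟩ := EReal.lt_iff_exists_rat_btwn.1 h2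
      exact ⟨q, h1, by exact_mod_cast hq1.le, hq2⟩
    · rintro ⟨q, h1, h2, h3⟩
      exact ⟨h1, lt_of_le_of_lt (by exact_mod_cast h2) h3⟩
  have hdir : Directed (· ⊆ ·) s := by
    intro p q
    by_cases hp : ((p : ℝ) : EReal) < T
    · by_cases hq : ((q : ℝ) : EReal) < T
      · refine ⟨max p q, ?_, ?_⟩
        · rintro t ⟨h1, h2, h3⟩
          refine ⟨h1, h2.trans (by exact_mod_cast le_max_left p q), ?_⟩
          rcases max_choice p q with h | h <;> rw [h] <;> assumption
        · rintro t ⟨h1, h2, h3⟩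
          refine ⟨h1, h2.trans (by exact_mod_cast le_max_right p q), ?_⟩
          rcases max_choice p q with h | h <;> rw [h] <;> assumption
      · refine ⟨p, subset_rfl, ?_⟩
        rintro t ⟨h1, h2, h3⟩
        exact absurd h3 hq
    · refine ⟨q, ?_, subset_rfl⟩
      rintro t ⟨h1, h2, h3⟩
      exact absurd h3 hp
  rw [hs, setLIntegral_iUnion_of_directed _ hdir]
  apply iSup_le
  intro q
  by_cases hq : t₀ ≤ q ∧ ((q : ℝ) : EReal) < T
  · refine le_trans (lintegral_mono_set ?_) (h q hq.1 hq.2)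
    rintro t ⟨h1, h2, h3⟩
    exact ⟨h1, h2⟩
  · have : s q = ∅ := by
      ext t
      simp only [mem_ofPred_eq, mem_empty_iff_false, iff_false, s]
      rintro ⟨h1, h2, h3⟩
      exact hq ⟨h1.trans h2, h3⟩
    rw [this]
    simp

/-- The nonlinearity `σ + tanh σ`. -/
noncomputable def phi (σ : ℝ) : ℝ := σ + Real.tanh σ

lemma l2stable : L2Stable (n := 1) (m := 0) ![-1] ![1] (fun _ => 1) phi := by
  intro η₁ η₂ hη₁ hη₂
  set K : ℝ := Real.log 2 + (η₁ + η₂ / 4) with hK
  refine ⟨(1 + K) ^ 2 * (2 * η₁ + η₂), ?_⟩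
  intro t₀ x₀ T x f ht₀ hf hx₀ hfe hsol
  apply lintegral_Ico_le
  intro b hb hbT
  set y : ℝ → ℝ := fun s => x s 0 with hy
  have hac : AbsolutelyContinuousOnInterval y t₀ b := scalar_ac hsol hb hbT
  have hyc : ContinuousOn y (Icc t₀ b) := by
    have := hac.continuousOn; rwa [uIcc_of_le hb] at this
  have hode := scalar_ode hsol
  have hy0 : |y t₀| < η₁ := by
    have := hsol.init
    rw [hy]; simp only; rw [this, ← norm_one]; exact hx₀
  -- energy of `f`
  have hfint : IntegrableOn (fun t => f t ^ 2) (Ici (0 : ℝ)) := by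
    refine ⟨(hf.pow_const 2).aestronglyMeasurable, ?_⟩
    rw [hasFiniteIntegral_iff_ofReal (Filter.Eventually.of_forall (fun t => sq_nonneg _))]
    exact hfe.trans ENNReal.ofReal_lt_top
  have hfle : ∫ t in Ici (0 : ℝ), f t ^ 2 ≤ η₂ := by
    rw [integral_eq_lintegral_of_nonneg_ae (Filter.Eventually.of_forall (fun t => sq_nonneg _))
      (hf.pow_const 2).aestronglyMeasurable]
    exact ENNReal.toReal_le_of_le_ofReal hη₂ hfe.le
  have hfint' : ∀ c, t₀ ≤ c → IntervalIntegrable (fun t => f t ^ 2) volume t₀ c := by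
    intro c hc
    rw [intervalIntegrable_iff_integrableOn_Icc_of_le hc]
    exact hfint.mono_set (fun t ht => ht₀.trans ht.1)
  have hfle' : ∀ c, t₀ ≤ c → ∫ t in t₀..c, f t ^ 2 ≤ η₂ := by
    intro c hc
    rw [intervalIntegral.integral_of_le hc]
    refine le_trans (setIntegral_mono_set hfint
      (Filter.Eventually.of_forall (fun t => sq_nonneg _)) ?_) hfle
    exact LE.le.eventuallyLE (fun t ht => ht₀.trans ht.1.le)
  -- derivative of the energy
  have hGac : ∀ c, t₀ ≤ c → c ≤ b → AbsolutelyContinuousOnInterval (fun s => G (y s)) t₀ c := by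
    intro c hc hcb
    apply ac_comp_lipschitz _ lipschitz_G
    exact hac.mono (by rw [uIcc_of_le hc, uIcc_of_le hb]; exact Icc_subset_Icc le_rfl hcb)
  have hGd : ∀ᵐ t : ℝ, t₀ ≤ t → (t : EReal) < T →
      deriv (fun s => G (y s)) t = Real.tanh (y t) * (-Real.tanh (y t) + f t) := by
    filter_upwards [hode] with t ht h1 h2
    have h3 := (hasDerivAt_G (y t)).comp t (ht h1 h2)
    have h4 := h3.deriv
    simp only [Function.comp_def] at h4
    rw [h4]
    simp only [phi, hy]
    ring
  -- uniform bound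
  have hbound : ∀ c ∈ Icc t₀ b, |y c| ≤ K := by
    intro c hc
    have h1 : G (y c) - G (y t₀) ≤ ∫ t in t₀..c, f t ^ 2 / 4 := by
      apply ac_le_of_deriv_le hc.1 (hGac c hc.1 hc.2)
      · exact (hfint' c hc.1).div_const 4
      · filter_upwards [hGd] with t ht htc
        rw [ht htc.1 (lt_of_le_of_lt (by exact_mod_cast htc.2.trans hc.2) hbT)]
        nlinarith [sq_nonneg (Real.tanh (y t) - f t / 2)]
    rw [intervalIntegral.integral_div] at h1
    have h2 := hfle' c hc.1
    have h3 := le_G (y c)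
    have h4 := G_le (y t₀)
    rw [hK]
    linarith
  -- integral of tanh^2
  have htanh : IntervalIntegrable (fun t => Real.tanh (y t) ^ 2) volume t₀ b := by
    apply ContinuousOn.intervalIntegrable
    rw [uIcc_of_le hb]
    exact (lipschitz_tanh.continuous.comp_continuousOn hyc).pow 2
  have hmain : ∫ t in t₀..b, Real.tanh (y t) ^ 2 ≤ 2 * η₁ + η₂ := by
    have h1 : G (y b) - G (y t₀) ≤ ∫ t in t₀..b, (f t ^ 2 / 2 - Real.tanh (y t) ^ 2 / 2) := by
      apply ac_le_of_deriv_le hb (hGac b hb le_rfl)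
      · exact ((hfint' b hb).div_const 2).sub (htanh.div_const 2)
      · filter_upwards [hGd] with t ht htc
        rw [ht htc.1 (lt_of_le_of_lt (by exact_mod_cast htc.2) hbT)]
        nlinarith [sq_nonneg (Real.tanh (y t) - f t)]
    rw [intervalIntegral.integral_sub ((hfint' b hb).div_const 2) (htanh.div_const 2),
      intervalIntegral.integral_div, intervalIntegral.integral_div] at h1
    have h2 := hfle' b hb
    have h3 := G_nonneg (y b)
    have h4 := G_le (y t₀)
    linarith
  -- conclusion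
  have hKnn : 0 ≤ K := (abs_nonneg _).trans (hbound t₀ ⟨le_rfl, hb⟩)
  have hpt : ∀ t ∈ Icc t₀ b, ENNReal.ofReal (‖x t‖ ^ 2) ≤
      ENNReal.ofReal ((1 + K) ^ 2 * Real.tanh (y t) ^ 2) := by
    intro t ht
    apply ENNReal.ofReal_le_ofReal
    rw [norm_one]
    have h1 := abs_le_tanh (y t)
    have h2 := hbound t ht
    have h3 : |y t| ≤ (1 + K) * |Real.tanh (y t)| :=
      h1.trans (mul_le_mul_of_nonneg_right (by linarith) (abs_nonneg _))
    calc |x t 0| ^ 2 = |y t| ^ 2 := rfl
      _ ≤ ((1 + K) * |Real.tanh (y t)|) ^ 2 := by gcongr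
      _ = (1 + K) ^ 2 * Real.tanh (y t) ^ 2 := by rw [mul_pow, sq_abs]
  calc ∫⁻ t in Icc t₀ b, ENNReal.ofReal (‖x t‖ ^ 2)
      ≤ ∫⁻ t in Icc t₀ b, ENNReal.ofReal ((1 + K) ^ 2 * Real.tanh (y t) ^ 2) :=
        setLIntegral_mono' measurableSet_Icc hpt
    _ = ENNReal.ofReal (∫ t in Icc t₀ b, (1 + K) ^ 2 * Real.tanh (y t) ^ 2) := by
        rw [ofReal_integral_eq_lintegral_ofReal]
        · have := (intervalIntegrable_iff_integrableOn_Icc_of_le hb).1 htanh
          exact this.const_mul _
        · exact Filter.Eventually.of_forall (fun t => by positivity)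
    _ ≤ ENNReal.ofReal ((1 + K) ^ 2 * (2 * η₁ + η₂)) := by
        apply ENNReal.ofReal_le_ofReal
        rw [integral_Icc_eq_integral_Ioc, ← intervalIntegral.integral_of_le hb,
          intervalIntegral.integral_const_mul]
        gcongr

lemma exact_sol (a : ℝ) : IsSolution (n := 1) (m := 0) ![-1] ![1] (fun _ => 1) phi (fun _ => 0)
    0 (vec1 a) ⊤ (fun t => vec1 (Real.arsinh (Real.exp (-t) * Real.sinh a))) := by
  have hd : ∀ t : ℝ, HasDerivAt (fun t => Real.arsinh (Real.exp (-t) * Real.sinh a))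
      (-Real.tanh (Real.arsinh (Real.exp (-t) * Real.sinh a))) t := by
    intro t
    have h1 : HasDerivAt (fun t : ℝ => Real.exp (-t) * Real.sinh a)
        (-(Real.exp (-t) * Real.sinh a)) t := by
      have := ((Real.hasDerivAt_exp (-t)).comp t (hasDerivAt_neg t)).mul_const (Real.sinh a)
      convert! this using 1
      ring
    have h2 := h1.arsinh
    rw [Real.tanh_arsinh]
    convert! h2 using 1
    rw [smul_eq_mul]
    ring
  have hc : Continuous (fun t => Real.arsinh (Real.exp (-t) * Real.sinh a)) :=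
    continuous_iff_continuousAt.2 (fun t => (hd t).continuousAt)
  refine ⟨by simp, ?_, ?_, ?_, ?_⟩
  · simp
  · intro b hb _
    apply ContDiffOn.absolutelyContinuousOnInterval
    apply ContDiff.contDiffOn
    rw [contDiff_euclidean]
    intro i
    fin_cases i
    simp only [vec1, Fin.zero_eta, Matrix.cons_val_zero]
    apply ContDiff.arsinh
    exact (Real.contDiff_exp.comp contDiff_neg).mul contDiff_const
  · intro b hb _
    apply Continuous.intervalIntegrable
    have h3 : (fun t : ℝ => phi (cvec 1 (m := 0) ![1] ⬝ᵥ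
        (vec1 (Real.arsinh (Real.exp (-t) * Real.sinh a))).ofLp)) =
        fun t => phi (Real.arsinh (Real.exp (-t) * Real.sinh a)) := by
      ext t
      rw [cvec_one, vec1_apply]
    rw [h3]
    exact (continuous_id.add lipschitz_tanh.continuous).comp hc
  · refine Filter.Eventually.of_forall (fun t _ _ => ?_)
    rw [rhs_one]
    convert! hasDerivAt_vec1 (hd t) using 2
    simp only [phi, vec1_apply]
    ring

lemma not_expstable : ¬ ExpStable (n := 1) (m := 0) ![-1] ![1] (fun _ => 1) phi := by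
  rintro ⟨ε₁, ε₂, h1, h2, h⟩
  have key : ∀ a : ℝ, 0 < a → (1 : ℝ) / 2 ≤ ε₂ * Real.exp (-ε₁ * (a / 2)) := by
    intro a ha
    have h3 := h 0 (vec1 a) ⊤ _ le_rfl (exact_sol a) (a / 2) (by positivity)
      (EReal.coe_lt_top _)
    rw [norm_vec1, norm_vec1, abs_of_pos ha, sub_zero] at h3
    have h4 : a / 2 ≤ Real.arsinh (Real.exp (-(a / 2)) * Real.sinh a) := by
      rw [← Real.sinh_le_sinh, Real.sinh_arsinh, Real.sinh_eq, Real.sinh_eq]
      have e1 : Real.exp (-(a / 2)) * ((Real.exp a - Real.exp (-a)) / 2) =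
          (Real.exp (a / 2) - Real.exp (-(a / 2)) * Real.exp (-a)) / 2 := by
        have : Real.exp (a / 2) = Real.exp (-(a / 2)) * Real.exp a := by
          rw [← Real.exp_add]; ring_nf
        rw [this]; ring
      rw [e1]
      have e2 : Real.exp (-(a / 2)) * Real.exp (-a) ≤ Real.exp (-(a / 2)) * 1 := by
        apply mul_le_mul_of_nonneg_left _ (Real.exp_pos _).le
        rw [Real.exp_le_one_iff]; linarith
      linarith
    have h5 := h4.trans ((le_abs_self _).trans h3)
    have h6 : a * (1 / 2) ≤ a * (ε₂ * Real.exp (-ε₁ * (a / 2))) := by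
      calc a * (1 / 2) = a / 2 := by ring
        _ ≤ _ := h5
        _ = _ := by ring
    exact le_of_mul_le_mul_left h6 ha
  -- choose `a` large
  have h7 := key (2 * (2 * ε₂ / ε₁)) (by positivity)
  have h8 : -ε₁ * (2 * (2 * ε₂ / ε₁) / 2) = -(2 * ε₂) := by field_simp
  rw [h8, Real.exp_neg] at h7
  have h9 : 2 * ε₂ < Real.exp (2 * ε₂) := by
    have := Real.add_one_le_exp (2 * ε₂); linarith
  have h10 : ε₂ * (Real.exp (2 * ε₂))⁻¹ < 1 / 2 := by
    rw [← div_eq_mul_inv, div_lt_div_iff₀ (Real.exp_pos _) (by norm_num)]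
    linarith
  linarith

/-- The system `y' - y + φ(y) = f` with `p(s) = s - 1`, `q(s) = 1`, `k = 1` and the real
analytic, odd, strictly increasing, globally Lipschitz nonlinearity `φ(σ) = σ + tanh σ` is
`L₂`-stable, but its null solution is not exponentially stable. -/
theorem result :
    AdmissibleGain (fun _ => 1) ∧
    ∃ φ : ℝ → ℝ, AdmissibleNonlinearity φ ∧ AnalyticOnNhd ℝ φ univ ∧ StrictMono φ ∧
      LipschitzWith 2 φ ∧ (∀ σ, φ (-σ) = -φ σ) ∧
      L2Stable (n := 1) (m := 0) ![-1] ![1] (fun _ => 1) φ ∧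
      ¬ ExpStable (n := 1) (m := 0) ![-1] ![1] (fun _ => 1) φ := by
  refine ⟨⟨⟨1, one_pos, fun t _ => le_rfl⟩, fun b _ => ?_⟩, phi, ⟨by simp [phi], 1, 2, one_pos,
    by norm_num, ?_⟩, ?_, ?_, ?_, ?_, l2stable, not_expstable⟩
  · exact contDiffOn_const.absolutelyContinuousOnInterval
  · intro σ _
    have h1 := abs_tanh_le σ
    have h2 : 0 ≤ σ * Real.tanh σ := by
      rcases le_total 0 σ with h | h
      · have : 0 ≤ Real.tanh σ := by
          rw [← Real.tanh_zero]; exact strictMono_tanh.monotone h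
        positivity
      · have : Real.tanh σ ≤ 0 := by
          rw [← Real.tanh_zero]; exact strictMono_tanh.monotone h
        exact mul_nonneg_of_nonpos_of_nonpos h this
    have h3 : σ * Real.tanh σ ≤ σ ^ 2 := by
      calc σ * Real.tanh σ ≤ |σ * Real.tanh σ| := le_abs_self _
        _ = |σ| * |Real.tanh σ| := abs_mul _ _
        _ ≤ |σ| * |σ| := by gcongr
        _ = σ ^ 2 := by rw [← sq, sq_abs]
    simp only [phi]
    constructor <;> nlinarith
  · intro x _
    have h : AnalyticAt ℝ (fun y => y + Real.sinh y / Real.cosh y) x :=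
      analyticAt_id.add (Real.analyticAt_sinh.div Real.analyticAt_cosh (Real.cosh_pos x).ne')
    convert! h using 1
    ext y
    rw [phi, Real.tanh_eq_sinh_div_cosh]
  · exact strictMono_id.add strictMono_tanh
  · have := (LipschitzWith.id (α := ℝ)).add lipschitz_tanh
    norm_num at this
    exact this
  · intro σ
    simp only [phi, Real.tanh_neg]
    ring

end Pool.Agent.Results.MP_d56d33_an.L2NotExp
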